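import Pool.Agent.TH233.LS.Dich

set_option autoImplicit false

/-!
# Local supporting hyperplanes do not characterise `ℂ`-convexity

For every `n ≥ 2` there is a bounded domain `D` of `ℂⁿ` such that for every boundary point `z` the
set `Γ_z(D)` of the complex hyperplanes through `z` which miss `D` near `z` is connected and
nonempty, but `D` is not `ℂ`-convex.

`D` is the set of the points whose first coordinate `x` is in a planar domain `Y` and whose other
coordinates have modulus less than `G(x)`, `G` being a locally concave function on `Y`. The domain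
`Y` is an L-shaped polygon to which thin tentacles are attached, accumulating at the reflex corner,
in which `G` climbs to a higher level; the reflex corners of the tentacles are decorated in the same
way, with smaller copies of the whole construction, and so on. Then at each boundary point of `Y`
either `Y` is locally convex and `G` is locally concave, or `G` has near the point values that
exceed the upper limit of `G` at the point by much more than the distance to the point; in the
second case the only complex hyperplane through a boundary point of `D` over the point which misses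
`D` locally is the vertical one.
-/

open Set Filter Topology Metric

namespace Pool.Agent.Results.MP_e79ea5_an.LocalSupports

/-- A complex line in `ℂⁿ`: a set `{a + t b : t ∈ ℂ}` with `b ≠ 0`. -/
def IsComplexLine {n : ℕ} (L : Set (Fin n → ℂ)) : Prop :=
  ∃ a b : Fin n → ℂ, b ≠ 0 ∧ L = {y | ∃ t : ℂ, y = a + t • b}

/-- `D` is `ℂ`-convex: its intersection with every complex line is empty, or connected and simply
connected. -/
def IsCConvex {n : ℕ} (D : Set (Fin n → ℂ)) : Prop :=
  ∀ L, IsComplexLine L → D ∩ L = ∅ ∨ (IsConnected (D ∩ L) ∧ IsSimplyConnected (D ∩ L))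

/-- The complex hyperplane `{w : a₁ (w₁ - z₁) + ⋯ + aₙ (wₙ - zₙ) = 0}` through `z` with the normal
direction `p = [a₁ : ⋯ : aₙ]`. -/
noncomputable def hyperplane {n : ℕ} (z : Fin n → ℂ) (p : Projectivization ℂ (Fin n → ℂ)) : Set (Fin n → ℂ) :=
  {w | ∑ i, p.rep i * (w i - z i) = 0}

/-- `Γ_z(D)`, the set of the (normal directions of the) complex hyperplanes `H` through `z` such
that `H ∩ U ∩ D = ∅` for some neighbourhood `U` of `z`. -/
def Gam {n : ℕ} (D : Set (Fin n → ℂ)) (z : Fin n → ℂ) : Set (Projectivization ℂ (Fin n → ℂ)) :=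
  {p | ∃ U : Set (Fin n → ℂ), IsOpen U ∧ z ∈ U ∧ hyperplane z p ∩ U ∩ D = ∅}

/-- The topology of the complex projective space `ℂℙⁿ⁻¹`, the quotient topology of
`ℂⁿ \ {0}`. -/
@[reducible] noncomputable def projTopology (n : ℕ) : TopologicalSpace (Projectivization ℂ (Fin n → ℂ)) :=
  TopologicalSpace.coinduced (Projectivization.mk' ℂ) inferInstance

/-! ### Hyperplanes -/

section hyp

variable {n : ℕ}

/-- the linear functional with coefficients `a` -/
noncomputable def lin (a : Fin n → ℂ) : (Fin n → ℂ) →L[ℂ] ℂ :=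
  ∑ i, a i • ContinuousLinearMap.proj (R := ℂ) (φ := fun _ : Fin n => ℂ) i

lemma lin_apply (a v : Fin n → ℂ) : lin a v = ∑ i, a i * v i := by
  simp [lin]

lemma eq_lin (g : (Fin n → ℂ) →L[ℂ] ℂ) (v : Fin n → ℂ) :
    g v = lin (fun i => g (Pi.single i 1)) v := by
  rw [lin_apply]
  have h1 : v = ∑ i, v i • (Pi.single i (1 : ℂ) : Fin n → ℂ) := by
    funext j
    simp [Finset.sum_apply, Pi.single_apply]
  conv_lhs => rw [h1]
  rw [map_sum]
  refine Finset.sum_congr rfl fun i _ => ?_
  rw [map_smul, smul_eq_mul, mul_comm]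

lemma mem_hyperplane {z w : Fin n → ℂ} {p : Projectivization ℂ (Fin n → ℂ)} :
    w ∈ hyperplane z p ↔ lin p.rep (w - z) = 0 := by
  rw [lin_apply]; rfl

lemma lin_surj {a : Fin n → ℂ} (ha : a ≠ 0) : Function.Surjective (lin a) := by
  obtain ⟨j, hj⟩ := Function.ne_iff.1 ha
  intro t
  refine ⟨Pi.single j (t / a j), ?_⟩
  rw [lin_apply, Finset.sum_eq_single j]
  · rw [Pi.single_eq_same]
    exact mul_div_cancel₀ t hj
  · intro i _ hi
    rw [Pi.single_eq_of_ne hi, mul_zero]
  · intro h
    exact absurd (Finset.mem_univ j) h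

/-- If `D` is convex near `z` then `Γ_z(D)` is connected. -/
theorem gam_connected_of_convex {D U : Set (Fin n → ℂ)} {z : Fin n → ℂ} (hD : IsOpen D)
    (hU : IsOpen U) (hzU : z ∈ U) (hconv : Convex ℝ (D ∩ U)) (hzD : z ∈ closure D) (hz : z ∉ D) :
    @IsConnected _ (projTopology n) (Gam D z) := by
  let _ := projTopology n
  set C := D ∩ U with hC
  have hCo : IsOpen C := hD.inter hU
  have hzC : z ∈ closure C := by
    rw [hC, inter_comm]
    exact hU.inter_closure ⟨hzU, hzD⟩
  have hCne : C.Nonempty := by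
    rw [← closure_nonempty_iff]; exact ⟨z, hzC⟩
  set S : Set (Fin n → ℂ) := {a | ∀ y ∈ C, (lin a (y - z)).re < 0} with hS
  have hSconv : Convex ℝ S := by
    intro a ha b hb s t hs ht hst y hy
    have h1 := ha y hy
    have h2 := hb y hy
    have h3 : lin (s • a + t • b) (y - z) = s * lin a (y - z) + t * lin b (y - z) := by
      simp only [lin_apply, Finset.mul_sum, ← Finset.sum_add_distrib]
      refine Finset.sum_congr rfl fun i _ => ?_
      simp only [Pi.add_apply, Pi.smul_apply, Complex.real_smul]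
      ring
    rw [h3, Complex.add_re, Complex.re_ofReal_mul, Complex.re_ofReal_mul]
    rcases hs.eq_or_lt with rfl | hs
    · have : t = 1 := by linarith
      subst this
      linarith
    · have h4 := mul_neg_of_pos_of_neg hs h1
      have h5 := mul_nonpos_of_nonneg_of_nonpos ht h2.le
      linarith
  have hSne : S.Nonempty := by
    obtain ⟨g, hg⟩ := RCLike.geometric_hahn_banach_open_point (𝕜 := ℂ) hconv hCo
      (x := z) (fun h => hz h.1)
    refine ⟨fun i => g (Pi.single i 1), fun y hy => ?_⟩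
    rw [← eq_lin, map_sub, Complex.sub_re]
    have := hg y hy
    simp only [RCLike.re_eq_complex_re] at this
    linarith
  have hS0 : ∀ a ∈ S, a ≠ 0 := by
    rintro a ha rfl
    obtain ⟨y, hy⟩ := hCne
    have := ha y hy
    simp [lin_apply] at this
  set S' : Set {v : Fin n → ℂ // v ≠ 0} := Subtype.val ⁻¹' S with hS'
  have hS'c : IsConnected S' := by
    have h1 : Subtype.val '' S' = S := by
      ext a
      constructor
      · rintro ⟨a, ha, rfl⟩
        exact ha
      · intro ha
        exact ⟨⟨a, hS0 a ha⟩, ha, rfl⟩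
    have h3 : Topology.IsInducing (Subtype.val : {v : Fin n → ℂ // v ≠ 0} → (Fin n → ℂ)) :=
      Topology.IsInducing.subtypeVal (t := {v : Fin n → ℂ | v ≠ 0})
    refine ⟨?_, ?_⟩
    · obtain ⟨a, ha⟩ := hSne
      exact ⟨⟨a, hS0 a ha⟩, ha⟩
    · rw [← h3.isPreconnected_image, h1]
      exact hSconv.isPreconnected
  have hcont : Continuous (Projectivization.mk' ℂ : {v : Fin n → ℂ // v ≠ 0} → _) :=
    continuous_coinduced_rng
  have heq : Gam D z = Projectivization.mk' ℂ '' S' := by
    apply Subset.antisymm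
    · rintro p ⟨V, hV, hzV, hdisj⟩
      set a := p.rep with ha
      have ha0 : a ≠ 0 := p.rep_nonzero
      -- the functional does not vanish on `C`
      have hnv : ∀ y ∈ C, lin a (y - z) ≠ 0 := by
        intro y hy h0
        have hcont2 : Tendsto (fun s : ℝ => z + s • (y - z)) (𝓝[>] 0) (𝓝 (z + (0 : ℝ) • (y - z))) := by
          apply Continuous.tendsto' (f := fun s : ℝ => z + s • (y - z)) (by fun_prop) _ _ rfl |>.mono_left
            nhdsWithin_le_nhds
        rw [zero_smul, add_zero] at hcont2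
        have hev := hcont2.eventually (hV.mem_nhds hzV)
        have hlt : ∀ᶠ s : ℝ in 𝓝[>] 0, s < 1 :=
          nhdsWithin_le_nhds (eventually_lt_nhds zero_lt_one)
        obtain ⟨s, ⟨hs1, hs2⟩, hs3⟩ := ((hev.and hlt).and self_mem_nhdsWithin).exists
        have hs3' : 0 < s := hs3
        have hsC : z + s • (y - z) ∈ C := by
          have h1 := hconv.combo_closure_interior_mem_interior hzC
            (by rw [hCo.interior_eq]; exact hy) (a := 1 - s) (b := s) (by linarith) hs3' (by ring)
          rw [hCo.interior_eq] at h1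
          convert h1 using 1
          rw [smul_sub, sub_smul, one_smul]; abel
        have h2 : z + s • (y - z) ∈ hyperplane z p ∩ V ∩ D := by
          refine ⟨⟨?_, hs1⟩, hsC.1⟩
          rw [mem_hyperplane, add_sub_cancel_left]
          have : s • (y - z) = (s : ℂ) • (y - z) := by
            ext i; simp
          rw [this, map_smul, h0, smul_zero]
        rw [hdisj] at h2
        exact h2
      -- separate `0` from the image
      have hT : IsOpen ((fun y => lin a (y - z)) '' C) := by
        have h1 : (fun y => lin a (y - z)) '' C = lin a '' ((fun y => y - z) '' C) := by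
          rw [image_image]
        rw [h1]
        exact (lin a).isOpenMap (lin_surj ha0) _
          ((Homeomorph.subRight z).isOpenMap C hCo)
      have hTc : Convex ℝ ((fun y => lin a (y - z)) '' C) := by
        rintro _ ⟨y, hy, rfl⟩ _ ⟨y', hy', rfl⟩ s t hs ht hst
        refine ⟨s • y + t • y', hconv hy hy' hs ht hst, ?_⟩
        have h1 : s • y + t • y' - z = (s : ℂ) • (y - z) + (t : ℂ) • (y' - z) := by
          ext i
          have h2 : ((s : ℂ) + (t : ℂ)) = 1 := by exact_mod_cast hst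
          simp only [Pi.sub_apply, Pi.add_apply, Pi.smul_apply, Complex.real_smul, smul_eq_mul]
          linear_combination (z i) * h2
        simp only
        rw [h1, map_add, map_smul, map_smul, Complex.real_smul, Complex.real_smul,
          smul_eq_mul, smul_eq_mul]
      have h0T : (0 : ℂ) ∉ (fun y => lin a (y - z)) '' C := by
        rintro ⟨y, hy, h⟩
        exact hnv y hy h
      obtain ⟨g, hg⟩ := RCLike.geometric_hahn_banach_open_point (𝕜 := ℂ) hTc hT h0T
      set θ : ℂ := g 1 with hθ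
      have hgθ : ∀ t : ℂ, g t = θ * t := by
        intro t
        have : t = t • (1 : ℂ) := by simp
        conv_lhs => rw [this]
        rw [map_smul, smul_eq_mul, mul_comm]
      have hθS : θ • a ∈ S := by
        intro y hy
        have h1 := hg _ ⟨y, hy, rfl⟩
        simp only [RCLike.re_eq_complex_re, hgθ, mul_zero, Complex.zero_re] at h1
        have h2 : lin (θ • a) (y - z) = θ * lin a (y - z) := by
          simp only [lin_apply, Finset.mul_sum]
          refine Finset.sum_congr rfl fun i _ => ?_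
          simp only [Pi.smul_apply, smul_eq_mul]
          ring
        rw [h2]
        exact h1
      have hθ0 : θ • a ≠ 0 := hS0 _ hθS
      refine ⟨⟨θ • a, hθ0⟩, hθS, ?_⟩
      rw [Projectivization.mk'_eq_mk]
      have h3 : Projectivization.mk ℂ (θ • a) hθ0 = Projectivization.mk ℂ a ha0 := by
        rw [Projectivization.mk_eq_mk_iff']
        exact ⟨θ, rfl⟩
      rw [h3]
      exact p.mk_rep
    · rintro _ ⟨⟨b, hb0⟩, hbS, rfl⟩
      refine ⟨U, hU, hzU, ?_⟩
      rw [eq_empty_iff_forall_notMem]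
      rintro w ⟨⟨hw1, hw2⟩, hw3⟩
      have hbS' : (lin b (w - z)).re < 0 := hbS w ⟨hw3, hw2⟩
      rw [mem_hyperplane, Projectivization.mk'_eq_mk] at hw1
      obtain ⟨t, ht⟩ := Projectivization.exists_smul_eq_mk_rep ℂ b hb0
      rw [← ht] at hw1
      have h2 : lin (t • b) (w - z) = (t : ℂ) * lin b (w - z) := by
        simp only [lin_apply, Finset.mul_sum]
        refine Finset.sum_congr rfl fun i _ => ?_
        simp only [Pi.smul_apply, Units.smul_def, smul_eq_mul]
        ring
      rw [h2] at hw1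
      rcases mul_eq_zero.1 hw1 with h | h
      · exact t.ne_zero h
      · rw [h] at hbS'
        simp at hbS'
  rw [heq]
  exact hS'c.image _ hcont.continuousOn

end hyp

/-! ### The domain -/

section dom

open Pool.Agent.TH233.LS

variable {n : ℕ}

/-- the domain; `o` is the index of the first coordinate -/
def Dn (o : Fin n) : Set (Fin n → ℂ) :=
  {z | ∃ a, Val (z o) a ∧ ∀ j, j ≠ o → ‖z j‖ < 1 + a / 100}

lemma local_desc {o : Fin n} {z : Fin n → ℂ} (h : LocConv Val (z o)) :
    ∃ (K : Set ℂ) (F : ℂ → ℝ) (ε : ℝ), 0 < ε ∧ IsOpen K ∧ Convex ℝ K ∧ ConcaveOn ℝ K F ∧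
      ∀ y : Fin n → ℂ, y o ∈ ball (z o) ε →
        (y ∈ Dn o ↔ y o ∈ K ∧ ∀ j, j ≠ o → ‖y j‖ < 1 + F (y o) / 100) := by
  obtain ⟨K, F, h1, h2, h3, h4⟩ := h
  obtain ⟨ε, hε, hb⟩ := Metric.eventually_nhds_iff_ball.1 h4
  refine ⟨K, F, ε, hε, h1, h2, h3, fun y hy => ?_⟩
  constructor
  · rintro ⟨a, ha, hj⟩
    obtain ⟨h5, rfl⟩ := (hb _ hy a).1 ha
    exact ⟨h5, hj⟩
  · rintro ⟨h5, hj⟩
    exact ⟨_, (hb _ hy _).2 ⟨h5, rfl⟩, hj⟩

lemma isOpen_Dn (o : Fin n) : IsOpen (Dn o) := by
  rw [isOpen_iff_mem_nhds]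
  intro z hz
  obtain ⟨a, ha, hj⟩ := hz
  obtain ⟨K, F, ε, hε, h1, h2, h3, h4⟩ := local_desc (locConv_of_val ha)
  have hz' := (h4 z (mem_ball_self hε)).1 ⟨a, ha, hj⟩
  have hFc : ContinuousAt F (z o) := (h3.continuousOn h1).continuousAt (h1.mem_nhds hz'.1)
  have ho : Tendsto (fun y : Fin n → ℂ => y o) (𝓝 z) (𝓝 (z o)) := (continuous_apply o).tendsto z
  have e1 : ∀ᶠ y in 𝓝 z, y o ∈ ball (z o) ε := ho.eventually (isOpen_ball.mem_nhds (mem_ball_self hε))
  have e2 : ∀ᶠ y in 𝓝 z, y o ∈ K := ho.eventually (h1.mem_nhds hz'.1)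
  have e3 : ∀ᶠ y in 𝓝 z, ∀ j, j ≠ o → ‖y j‖ < 1 + F (y o) / 100 := by
    rw [Filter.eventually_all]
    intro j
    by_cases hjo : j = o
    · exact Filter.Eventually.of_forall fun y h => absurd hjo h
    · have t1 : Tendsto (fun y : Fin n → ℂ => ‖y j‖) (𝓝 z) (𝓝 ‖z j‖) :=
        ((continuous_apply j).norm).tendsto z
      have t2 : Tendsto (fun y : Fin n → ℂ => 1 + F (y o) / 100) (𝓝 z) (𝓝 (1 + F (z o) / 100)) :=
        ((hFc.tendsto.comp ho).div_const 100).const_add 1
      filter_upwards [t1.eventually_lt t2 (hz'.2 j hjo)] with y hy _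
      exact hy
  filter_upwards [e1, e2, e3] with y y1 y2 y3
  exact (h4 y y1).2 ⟨y2, y3⟩

lemma convex_near {o : Fin n} {z : Fin n → ℂ} (h : LocConv Val (z o)) :
    ∃ U : Set (Fin n → ℂ), IsOpen U ∧ z ∈ U ∧ Convex ℝ (Dn o ∩ U) := by
  obtain ⟨K, F, ε, hε, h1, h2, h3, h4⟩ := local_desc h
  refine ⟨{y | y o ∈ ball (z o) ε}, isOpen_ball.preimage (continuous_apply o),
    mem_ball_self hε, ?_⟩
  rintro x ⟨hx, hxU⟩ y ⟨hy, hyU⟩ s t hs ht hst
  have hx' := (h4 x hxU).1 hx
  have hy' := (h4 y hyU).1 hy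
  have hU : (s • x + t • y) o ∈ ball (z o) ε := (convex_ball (z o) ε) hxU hyU hs ht hst
  refine ⟨(h4 _ hU).2 ⟨h2 hx'.1 hy'.1 hs ht hst, fun j hj => ?_⟩, hU⟩
  have e1 : ‖(s • x + t • y) j‖ ≤ s * ‖x j‖ + t * ‖y j‖ := by
    refine (norm_add_le _ _).trans ?_
    simp only [Pi.smul_apply, norm_smul, Real.norm_of_nonneg hs, Real.norm_of_nonneg ht, le_refl]
  have e2 := h3.2 hx'.1 hy'.1 hs ht hst
  have e3 : (s • x + t • y) o = s • x o + t • y o := rfl
  rw [e3]
  have e4 := hx'.2 j hj
  have e5 := hy'.2 j hj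
  simp only [smul_eq_mul] at e2
  rcases hs.eq_or_lt with rfl | hs
  · have : t = 1 := by linarith
    subst this
    linarith
  · have e6 := mul_lt_mul_of_pos_left e4 hs
    have e7 := mul_le_mul_of_nonneg_left e5.le ht
    have e8 : s * (1 + F (x o) / 100) + t * (1 + F (y o) / 100) =
        1 + (s * F (x o) + t * F (y o)) / 100 := by linear_combination hst
    linarith

/-- the vertical hyperplane is the only one at a boundary point over a spike point -/
theorem gam_of_peak {o : Fin n} {z : Fin n → ℂ} (hzD : z ∈ closure (Dn o)) (hY : z o ∉ Y)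
    (hp : Peak (z o)) : @IsConnected _ (projTopology n) (Gam (Dn o) z) := by
  let _ := projTopology n
  set v : Fin n → ℂ := Pi.single o 1 with hv
  have hv0 : v ≠ 0 := by
    intro h
    have := congrFun h o
    simp [hv] at this
  have heq : Gam (Dn o) z = {Projectivization.mk ℂ v hv0} := by
    apply Subset.antisymm
    · rintro p ⟨U, hU, hzU, hdisj⟩
      rw [mem_singleton_iff]
      set a := p.rep with ha
      by_contra hne
      have hex : ∃ j, j ≠ o ∧ a j ≠ 0 := by
        by_contra hcon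
        push Not at hcon
        apply hne
        rw [← p.mk_rep, Projectivization.mk_eq_mk_iff']
        refine ⟨a o, ?_⟩
        funext j
        by_cases hj : j = o
        · subst hj
          simp [hv]; rfl
        · simp only [hv, Pi.smul_apply, smul_eq_mul, Pi.single_eq_of_ne hj, mul_zero]
          exact (hcon j hj).symm
      obtain ⟨j, hjo, haj⟩ := hex
      set q : ℝ := ‖a o / a j‖ with hq
      have hq0 : 0 ≤ q := norm_nonneg _
      obtain ⟨ε, hε, hball⟩ := Metric.isOpen_iff.1 hU z hzU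
      obtain ⟨x', a', h1, h2, h3, r, hr, h4⟩ := hp (100 * (q + 1)) (ε / (q + 1)) (by positivity)
      have hd : 0 < dist x' (z o) := dist_pos.2 h2
      -- bound on the coordinates of `z`
      have hzn : ∀ i, i ≠ o → ‖z i‖ ≤ 1 + (a' - 100 * (q + 1) * dist x' (z o)) / 100 := by
        intro i hi
        have hcl : z ∈ closure (Dn o ∩ {y | y o ∈ ball (z o) r}) := by
          rw [inter_comm]
          exact (isOpen_ball.preimage (continuous_apply o)).inter_closure ⟨mem_ball_self hr, hzD⟩
        have hcl2 : IsClosed {y : Fin n → ℂ | ‖y i‖ ≤ 1 + (a' - 100 * (q + 1) * dist x' (z o)) / 100} :=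
          isClosed_le ((continuous_apply i).norm) continuous_const
        refine (closure_minimal ?_ hcl2) hcl
        rintro y ⟨⟨b, hb, hyb⟩, hyr⟩
        have h5 := h4 _ _ hb hyr
        have h6 := hyb i hi
        show ‖y i‖ ≤ _
        linarith
      set w : Fin n → ℂ := fun i => if i = o then x' else
        if i = j then z j - a o / a j * (x' - z o) else z i with hw
      have hwo : w o = x' := by simp [hw]
      have hwj : w j = z j - a o / a j * (x' - z o) := by simp [hw, hjo]
      have hwi : ∀ i, i ≠ o → i ≠ j → w i = z i := by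
        intro i hi hij
        simp [hw, hi, hij]
      have hwD : w ∈ Dn o := by
        refine ⟨a', by rw [hwo]; exact h1, fun i hi => ?_⟩
        by_cases hij : i = j
        · rw [hij, hwj]
          have e1 : ‖z j - a o / a j * (x' - z o)‖ ≤ ‖z j‖ + q * dist x' (z o) := by
            refine (norm_sub_le _ _).trans ?_
            rw [norm_mul, ← dist_eq_norm]
          have e2 := hzn j hjo
          nlinarith
        · rw [hwi i hi hij]
          have e2 := hzn i hi
          nlinarith
      have hwU : w ∈ U := by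
        apply hball
        rw [mem_ball, dist_pi_lt_iff hε]
        have h3' : (q + 1) * dist x' (z o) < ε := by
          rw [lt_div_iff₀ (by positivity)] at h3
          linarith
        intro i
        by_cases hi : i = o
        · rw [hi, hwo]; nlinarith
        · by_cases hij : i = j
          · rw [hij, hwj, dist_eq_norm, sub_sub_cancel_left, norm_neg, norm_mul, ← dist_eq_norm]
            nlinarith
          · rw [hwi i hi hij, dist_self]; exact hε
      have hwH : w ∈ hyperplane z p := by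
        show ∑ i, a i * (w i - z i) = 0
        rw [← Finset.add_sum_erase _ _ (Finset.mem_univ o),
          ← Finset.add_sum_erase _ _ (Finset.mem_erase.2 ⟨hjo, Finset.mem_univ j⟩)]
        rw [Finset.sum_eq_zero]
        · rw [hwo, hwj]
          field_simp
          ring
        · intro i hi
          rw [Finset.mem_erase, Finset.mem_erase] at hi
          rw [hwi i hi.2.1 hi.1, sub_self, mul_zero]
      have : w ∈ hyperplane z p ∩ U ∩ Dn o := ⟨⟨hwH, hwU⟩, hwD⟩
      rw [hdisj] at this
      exact this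
    · rw [singleton_subset_iff]
      refine ⟨univ, isOpen_univ, mem_univ _, ?_⟩
      rw [eq_empty_iff_forall_notMem]
      rintro w ⟨⟨hw1, -⟩, ⟨a, ha, -⟩⟩
      obtain ⟨t, ht⟩ := Projectivization.exists_smul_eq_mk_rep ℂ v hv0
      have hw2 : ∑ i, (Projectivization.mk ℂ v hv0).rep i * (w i - z i) = 0 := hw1
      rw [← ht, Finset.sum_eq_single o] at hw2
      · simp only [hv, Units.smul_def, Pi.smul_apply, Pi.single_eq_same, smul_eq_mul, mul_one] at hw2
        rcases mul_eq_zero.1 hw2 with h | h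
        · exact t.ne_zero h
        · apply hY
          rw [sub_eq_zero] at h
          rw [← h]
          exact ⟨a, ha⟩
      · intro i _ hi
        simp [hv, Units.smul_def, Pi.single_eq_of_ne hi]
      · intro h
        exact absurd (Finset.mem_univ o) h
  rw [heq]
  exact isConnected_singleton

theorem gam_connected {o : Fin n} {z : Fin n → ℂ} (hz : z ∈ frontier (Dn o)) :
    @IsConnected _ (projTopology n) (Gam (Dn o) z) := by
  rw [(isOpen_Dn o).frontier_eq] at hz
  have hcl : z o ∈ closure Y := by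
    have h1 := mem_closure_image (f := fun y : Fin n → ℂ => y o)
      (continuous_apply o).continuousAt hz.1
    refine closure_mono ?_ h1
    rintro _ ⟨y, ⟨a, ha, -⟩, rfl⟩
    exact ⟨a, ha⟩
  rcases dichotomy hcl with h | ⟨h1, h2⟩
  · obtain ⟨U, hU, hzU, hconv⟩ := convex_near (o := o) h
    exact gam_connected_of_convex (isOpen_Dn o) hU hzU hconv hz.1 hz.2
  · exact gam_of_peak hz.1 h1 h2

/-! ### Connectedness and boundedness -/

/-- the base point -/
noncomputable def q0 : ℂ := ⟨-(1 / 2), -(1 / 2)⟩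

lemma q0_W : q0 ∈ W := by refine ⟨?_, ?_, ?_, ?_⟩ <;> norm_num [q0]
lemma q0_K1 : q0 ∈ K1 := ⟨q0_W, by norm_num [q0]⟩
lemma q0_K2 : q0 ∈ K2 := ⟨q0_W, by norm_num [q0]⟩

lemma K12_pre : IsPreconnected (K1 ∪ K2) :=
  convex_K1.isPreconnected.union q0 q0_K1 q0_K2 convex_K2.isPreconnected

lemma K12_Y : K1 ∪ K2 ⊆ Y := by
  rintro x (⟨h1, h2⟩ | ⟨h1, h2⟩)
  · exact ⟨0, Val.base (Base.main x h1 (Or.inl h2))⟩
  · exact ⟨0, Val.base (Base.main x h1 (Or.inr h2))⟩

lemma base_joined {x : ℂ} {a : ℝ} (h : Base x a) :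
    ∃ t ⊆ Y, q0 ∈ t ∧ x ∈ t ∧ IsPreconnected t := by
  have hPY : ∀ k, P k ⊆ Y := fun k y hy => ⟨_, Val.base (Base.hor k y hy)⟩
  have hQY : ∀ k, Q k ⊆ Y := fun k y hy => ⟨_, Val.base (Base.ver k y hy)⟩
  have hPpre : ∀ k, IsPreconnected ((K1 ∪ K2) ∪ P k) := by
    intro k
    have he := e_pos k
    have he1 := e_le k
    have hc1 : (⟨-e k, 1024 * e k⟩ : ℂ) ∈ P k := by
      refine ⟨?_, ?_, ?_, ?_⟩ <;> simp only <;> linarith
    have hc2 : (⟨-e k, 1024 * e k⟩ : ℂ) ∈ K1 ∪ K2 := by
      refine Or.inl ⟨P_W hc1, ?_⟩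
      show -e k < 0
      linarith
    exact K12_pre.union _ hc2 hc1 (convex_P k).isPreconnected
  rcases h with ⟨_, h1, h2⟩ | ⟨k, _, h⟩ | ⟨k, _, h⟩
  · refine ⟨K1 ∪ K2, K12_Y, Or.inl q0_K1, ?_, K12_pre⟩
    rcases h2 with h2 | h2
    · exact Or.inl ⟨h1, h2⟩
    · exact Or.inr ⟨h1, h2⟩
  · exact ⟨(K1 ∪ K2) ∪ P k, union_subset K12_Y (hPY k), Or.inl (Or.inl q0_K1), Or.inr h, hPpre k⟩
  · refine ⟨((K1 ∪ K2) ∪ P k) ∪ Q k, union_subset (union_subset K12_Y (hPY k)) (hQY k),
      Or.inl (Or.inl (Or.inl q0_K1)), Or.inr h, ?_⟩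
    have he := e_pos k
    have hc1 : (⟨126 * e k, 1024 * e k⟩ : ℂ) ∈ P k := by
      refine ⟨?_, ?_, ?_, ?_⟩ <;> simp only <;> linarith
    have hc2 : (⟨126 * e k, 1024 * e k⟩ : ℂ) ∈ Q k := by
      refine ⟨?_, ?_, ?_, ?_⟩ <;> simp only <;> linarith
    exact (hPpre k).union _ (Or.inr hc1) hc2 (convex_Q k).isPreconnected

lemma continuous_phi (k : ℕ) (i : Fin 3) : Continuous (phi k i) := by
  have : phi k i = fun y : ℂ => ((bx i * e k + e k * (sg i * y.re) : ℝ) : ℂ) +
      ((bz i * e k + e k * (tg i * y.im) : ℝ) : ℂ) * Complex.I := by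
    funext x
    apply Complex.ext <;> simp [phi]
  rw [this]
  fun_prop

lemma val_joined {x : ℂ} {a : ℝ} (h : Val x a) :
    ∃ t ⊆ Y, q0 ∈ t ∧ x ∈ t ∧ IsPreconnected t := by
  induction h with
  | base h => exact base_joined h
  | @sub k i y b hy hb ih =>
    obtain ⟨t, ht1, ht2, ht3, ht4⟩ := ih
    have hq : Base (phi k i q0) (lam k i (phi k i q0)) := by
      rw [base_SB (phi_mem_SB q0_W), psi_phi]
      exact ⟨Or.inl q0_K1.2, rfl⟩
    obtain ⟨s, hs1, hs2, hs3, hs4⟩ := base_joined hq
    refine ⟨s ∪ phi k i '' t, union_subset hs1 ?_, Or.inl hs2, Or.inr ⟨y, ht3, rfl⟩, ?_⟩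
    · rintro _ ⟨z, hz, rfl⟩
      obtain ⟨c', hc'⟩ := ht1 hz
      exact ⟨_, Val.sub k i (val_W hc') hc'⟩
    · exact hs4.union _ hs3 ⟨q0, ht2, rfl⟩ (ht4.image _ (continuous_phi k i).continuousOn)

lemma pos_of_val {x : ℂ} {a : ℝ} (h : Val x a) : 0 < 1 + a / 100 := by
  have := (val_bounds h).1
  linarith

theorem isConnected_Dn (o : Fin n) : IsConnected (Dn o) := by
  -- the inclusion of the plane
  set ι : ℂ → (Fin n → ℂ) := fun x j => if j = o then x else 0 with hι
  have hιc : Continuous ι := by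
    refine continuous_pi fun j => ?_
    by_cases hj : j = o
    · simp only [hι, hj, if_true]; exact continuous_id
    · simp only [hι, hj, if_false]; exact continuous_const
  have hιD : ∀ x ∈ Y, ι x ∈ Dn o := by
    rintro x ⟨a, ha⟩
    refine ⟨a, by simpa [hι] using ha, fun j hj => ?_⟩
    simp only [hι, hj, if_false, norm_zero]
    exact pos_of_val ha
  have hq : q0 ∈ Y := K12_Y (Or.inl q0_K1)
  refine ⟨⟨ι q0, hιD _ hq⟩, ?_⟩
  apply isPreconnected_of_forall (ι q0)
  rintro z ⟨a, ha, hz⟩
  obtain ⟨t, ht1, ht2, ht3, ht4⟩ := val_joined ha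
  set γ : ℝ → (Fin n → ℂ) := fun s j => if j = o then z o else (s : ℂ) * z j with hγ
  have hγc : Continuous γ := by
    refine continuous_pi fun j => ?_
    by_cases hj : j = o
    · simp only [hγ, hj, if_true]; exact continuous_const
    · simp only [hγ, hj, if_false]; fun_prop
  refine ⟨ι '' t ∪ γ '' Icc 0 1, ?_, Or.inl ⟨q0, ht2, rfl⟩, Or.inr ⟨1, by simp, ?_⟩, ?_⟩
  · rintro _ (⟨x, hx, rfl⟩ | ⟨s, ⟨hs0, hs1⟩, rfl⟩)
    · exact hιD x (ht1 hx)
    · refine ⟨a, by simpa [hγ] using ha, fun j hj => ?_⟩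
      simp only [hγ, hj, if_false, norm_mul, Complex.norm_real, Real.norm_of_nonneg hs0]
      have := hz j hj
      have := norm_nonneg (z j)
      nlinarith
  · funext j
    by_cases hj : j = o
    · simp [hγ, hj]
    · simp [hγ, hj]
  · refine (ht4.image _ hιc.continuousOn).union (ι (z o)) ⟨z o, ht3, rfl⟩ ⟨0, by simp, ?_⟩
      (isPreconnected_Icc.image _ hγc.continuousOn)
    funext j
    by_cases hj : j = o
    · simp [hγ, hι, hj]
    · simp [hγ, hι, hj]

theorem isBounded_Dn (o : Fin n) : Bornology.IsBounded (Dn o) := by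
  apply (Metric.isBounded_closedBall (x := (0 : Fin n → ℂ)) (r := 2)).subset
  rintro z ⟨a, ha, hz⟩
  rw [mem_closedBall_zero_iff, pi_norm_le_iff_of_nonneg (by norm_num)]
  intro j
  by_cases hj : j = o
  · obtain ⟨h1, h2, h3, h4⟩ := val_W ha
    rw [hj]
    refine (Complex.norm_le_abs_re_add_abs_im _).trans ?_
    have e1 := abs_le.2 ⟨h1.le, h2.le⟩
    have e2 := abs_le.2 ⟨h3.le, h4.le⟩
    linarith
  · have h1 := hz j hj
    have h2 := (val_bounds ha).2
    linarith

/-! ### A disconnected slice -/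

lemma val_re {x : ℂ} {a : ℝ} (h : Val x a) (him : 0 < x.im) : x.re < 1 / 16 := by
  rcases h with h | ⟨k, i, hz, hb⟩
  · rcases h with ⟨_, h1, h2⟩ | ⟨k, _, h⟩ | ⟨k, _, h⟩
    · rcases h2 with h2 | h2
      · linarith
      · linarith
    · have := e_le k
      linarith [h.2.1]
    · have := e_le k
      linarith [h.2.1]
  · have := SB_re (phi_mem_SB (k := k) (i := i) hz)
    have := e_le k
    linarith

theorem slice_not_connected {o j1 : Fin n} (hne : j1 ≠ o) :
    ∃ L : Set (Fin n → ℂ), IsComplexLine L ∧ (Dn o ∩ L).Nonempty ∧ ¬ IsPreconnected (Dn o ∩ L) := by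
  set p : ℂ := ⟨1 / 2, 1 / 2⟩ with hp
  set A : Fin n → ℂ := Pi.single j1 (-((20 / 11 : ℝ) : ℂ) * p) with hA
  set B : Fin n → ℂ := Pi.single o 1 + Pi.single j1 ((20 / 11 : ℝ) : ℂ) with hB
  have hBo : B o = 1 := by simp [hB, hne.symm]
  have hBj : B j1 = ((20 / 11 : ℝ) : ℂ) := by simp [hB, hne]
  have hB0 : B ≠ 0 := by
    intro h
    have := congrFun h o
    rw [hBo] at this
    simp at this
  have ho : ∀ t : ℂ, (A + t • B) o = t := by
    intro t
    simp only [Pi.add_apply, Pi.smul_apply, hBo, hA, smul_eq_mul, mul_one]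
    rw [Pi.single_eq_of_ne hne.symm, zero_add]
  have hj : ∀ t : ℂ, (A + t • B) j1 = ((20 / 11 : ℝ) : ℂ) * (t - p) := by
    intro t
    simp only [Pi.add_apply, Pi.smul_apply, hBj, hA, smul_eq_mul, Pi.single_eq_same]
    ring
  have hoth : ∀ t : ℂ, ∀ j, j ≠ o → j ≠ j1 → (A + t • B) j = 0 := by
    intro t j h1 h2
    simp [hA, hB, h1, h2]
  have hmem : ∀ t : ℂ, t ∈ W → t ∈ M → ‖t - p‖ < 11 / 20 →
      A + t • B ∈ Dn o ∩ {y | ∃ t : ℂ, y = A + t • B} := by
    intro t h1 h2 h3
    refine ⟨⟨0, by rw [ho]; exact Val.base (Base.main t h1 h2), fun j hjo => ?_⟩, t, rfl⟩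
    by_cases hjj : j = j1
    · rw [hjj, hj, norm_mul, Complex.norm_real, Real.norm_of_nonneg (by norm_num)]
      linarith
    · rw [hoth t j hjo hjj, norm_zero]
      norm_num
  have hp1 : (⟨-(1 / 100), 1 / 2⟩ : ℂ) ∈ W := by refine ⟨?_, ?_, ?_, ?_⟩ <;> norm_num
  have hp2 : (⟨1 / 2, -(1 / 100)⟩ : ℂ) ∈ W := by refine ⟨?_, ?_, ?_, ?_⟩ <;> norm_num
  have hn1 : ‖(⟨-(1 / 100), 1 / 2⟩ : ℂ) - p‖ < 11 / 20 := by
    refine lt_of_le_of_lt (Complex.norm_le_abs_re_add_abs_im _) ?_
    simp only [hp, Complex.sub_re, Complex.sub_im]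
    norm_num [abs_of_neg]
  have hn2 : ‖(⟨1 / 2, -(1 / 100)⟩ : ℂ) - p‖ < 11 / 20 := by
    refine lt_of_le_of_lt (Complex.norm_le_abs_re_add_abs_im _) ?_
    simp only [hp, Complex.sub_re, Complex.sub_im]
    norm_num [abs_of_neg]
  have hm1 := hmem _ hp1 (Or.inl (by norm_num)) hn1
  have hm2 := hmem _ hp2 (Or.inr (by norm_num)) hn2
  refine ⟨{y | ∃ t : ℂ, y = A + t • B}, ⟨A, B, hB0, rfl⟩, ⟨_, hm1⟩, fun hpre => ?_⟩
  have hcont : Continuous (fun y : Fin n → ℂ => (y o).im) :=
    Complex.continuous_im.comp (continuous_apply o)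
  have himg := hpre.image _ hcont.continuousOn
  have h1 : (1 / 20 : ℝ) ∈ (fun y : Fin n → ℂ => (y o).im) ''
      (Dn o ∩ {y | ∃ t : ℂ, y = A + t • B}) := by
    refine himg.Icc_subset ⟨_, hm2, rfl⟩ ⟨_, hm1, rfl⟩ ⟨?_, ?_⟩
    · simp only [ho]; norm_num
    · simp only [ho]; norm_num
  obtain ⟨y, ⟨⟨a, ha, hya⟩, t, rfl⟩, hy⟩ := h1
  rw [ho] at ha
  simp only [ho] at hy
  have h2 := hya j1 hne
  rw [hj, norm_mul, Complex.norm_real, Real.norm_of_nonneg (by norm_num)] at h2
  have h3 := val_re ha (by rw [hy]; norm_num)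
  have h4 := (val_bounds ha).2
  have h5 : ‖t - p‖ ^ 2 = (t.re - 1 / 2) ^ 2 + (t.im - 1 / 2) ^ 2 := by
    rw [Complex.sq_norm, Complex.normSq_apply]
    simp only [hp, Complex.sub_re, Complex.sub_im]
    ring
  have h6 : ‖t - p‖ < 57 / 100 := by linarith
  have h7 := norm_nonneg (t - p)
  rw [hy] at h5
  nlinarith

end dom

/-- **Answer to Q1 (negative), for every `n ≥ 2`.** There is a bounded domain `D` of `ℂⁿ` which is
not `ℂ`-convex, although the set `Γ_z(D)` of the local supporting complex hyperplanes is connected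
(in particular nonempty) for every boundary point `z`. -/
theorem result : ∀ n : ℕ, 2 ≤ n → ∃ D : Set (Fin n → ℂ),
    IsOpen D ∧ IsConnected D ∧ Bornology.IsBounded D ∧
      (∀ z ∈ frontier D, @IsConnected _ (projTopology n) (Gam D z)) ∧ ¬ IsCConvex D := by
  intro n hn
  set o : Fin n := ⟨0, by omega⟩ with ho
  set j1 : Fin n := ⟨1, by omega⟩ with hj1
  have hne : j1 ≠ o := by
    rw [ho, hj1]
    simp
  refine ⟨Dn o, isOpen_Dn o, isConnected_Dn o, isBounded_Dn o, fun z hz => gam_connected hz, ?_⟩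
  intro hC
  obtain ⟨L, hL, hLne, hLpre⟩ := slice_not_connected hne
  rcases hC L hL with h | h
  · rw [h] at hLne
    exact not_nonempty_empty hLne
  · exact hLpre h.1.isPreconnected

end Pool.Agent.Results.MP_e79ea5_an.LocalSupports
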